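import Mathlib
import Pool.Agent.H.MP_dcd7a9_nt.D

set_option autoImplicit false

namespace Pool.Agent.Results.MP_dcd7a9_nt.No

open Finset Pool.Agent.H.MP_dcd7a9_nt

/-- `a n = p_n + ⋯ + p_{2n}` with `p_k = Nat.nth Nat.Prime (k - 1)`. -/
noncomputable def a (n : ℕ) : ℕ := ∑ k ∈ Icc n (2 * n), Nat.nth Nat.Prime (k - 1)

theorem shift (n : ℕ) : ∑ k ∈ range n, Nat.nth Nat.Prime k + a (n + 1) =
    ∑ k ∈ range (2 * (n + 1)), Nat.nth Nat.Prime k := by
  rw [a, range_eq_Ico, range_eq_Ico, ← sum_Ico_consecutive _ (Nat.zero_le n)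
    (show n ≤ 2 * (n + 1) by omega), ← Ico_add_one_right_eq_Icc, ← sum_Ico_add' _ n _ 1]
  rfl

theorem result : ∃ n : ℕ, 1 ≤ n ∧ n ∉ ({3, 6, 4072} : Set ℕ) ∧ IsSquare (a n) := by
  refine ⟨111008770 + 1, by norm_num, by norm_num, 622112686, ?_⟩
  have h := shift 111008770
  rw [suma, show 2 * (111008770 + 1) = 222017542 by norm_num, sumb] at h
  omega

end Pool.Agent.Results.MP_dcd7a9_nt.No
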